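import Pool.Agent.Y890.MV.Base

/-!
# Charts from analytic functions of several complex variables on a compact set
-/

set_option autoImplicit false
set_option linter.unusedSectionVars false

open Filter Topology

namespace Pool.Agent.Y232.MV

open Pool.Agent.Y120 (cm mv)
open Pool.Agent.Y890.MV

variable {X σ : Type} [Fintype X] [DecidableEq X] [Fintype σ] [DecidableEq σ]

/-- the monomial functions -/
noncomputable def Wm (f : σ → (X → ℂ) → ℂ) (j : X ⊕ σ →₀ ℕ) (t : X → ℂ) : ℂ :=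
  mv (Sum.elim t (fun i => f i t)) j

theorem Wm_an (f : σ → (X → ℂ) → ℂ) {t : X → ℂ} (han : ∀ i, AnalyticAt ℂ (f i) t)
    (j : X ⊕ σ →₀ ℕ) : AnalyticAt ℂ (Wm f j) t := by
  have h1 : ∀ o : X ⊕ σ, AnalyticAt ℂ (fun t : X → ℂ => Sum.elim t (fun i => f i t) o) t := by
    rintro (x | i)
    · exact (ContinuousLinearMap.proj (R := ℂ) (φ := fun _ : X => ℂ) x).analyticAt t
    · exact han i
  exact Finset.analyticAt_fun_prod j.support fun o _ => (h1 o).pow _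

/-- the Taylor polynomial -/
noncomputable def tp (tcX : ((X → ℂ) → ℂ) → (X → ℕ) → (X → ℂ) → ℂ) (F : (X → ℂ) → ℂ) (P : ℕ)
    (x w : X → ℂ) : ℂ :=
  ∑ p : X → Fin P, tcX F (fun i => (p i : ℕ)) x * cm w (fun i => (p i : ℕ))

theorem cm_norm (w : X → ℂ) (α : X → ℕ) {r : ℝ} (hr : ‖w‖ ≤ r) :
    ‖cm w α‖ ≤ ∏ i, r ^ α i := by
  unfold cm
  rw [norm_prod]
  refine Finset.prod_le_prod (fun i _ => norm_nonneg _) fun i _ => ?_
  rw [norm_pow]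
  exact pow_le_pow_left₀ (norm_nonneg _) ((norm_le_pi_norm w i).trans hr) _

/-- a uniform radius -/
theorem exists_radius (f : σ → (X → ℂ) → ℂ) {K : Set (X → ℂ)} (hK : IsCompact K)
    (han : ∀ i, ∀ t ∈ K, AnalyticAt ℂ (f i) t) :
    ∃ δ : ℝ, 0 < δ ∧ ∀ t ∈ Metric.cthickening δ K, ∀ i, AnalyticAt ℂ (f i) t := by
  have hU : IsOpen {t : X → ℂ | ∀ i, AnalyticAt ℂ (f i) t} := by
    have h1 : {t : X → ℂ | ∀ i, AnalyticAt ℂ (f i) t} = ⋂ i, {t | AnalyticAt ℂ (f i) t} := by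
      ext t
      simp
    rw [h1]
    exact isOpen_iInter_of_finite fun i => isOpen_analyticAt ℂ (f i)
  obtain ⟨δ, hδ, h⟩ := hK.exists_cthickening_subset_open hU (fun t ht i => han i t ht)
  exact ⟨δ, hδ, fun t ht i => h ht i⟩

section

variable {tcX : ((X → ℂ) → ℂ) → (X → ℕ) → (X → ℂ) → ℂ}
  (hcont : ∀ (F : (X → ℂ) → ℂ) (c : X → ℂ) (α : X → ℕ), AnalyticAt ℂ F c →
    ContinuousAt (tcX F α) c)
  (hrem : ∀ (F : (X → ℂ) → ℂ) (c : X → ℂ) (P : ℕ), AnalyticAt ℂ F c → ∃ C ρ : ℝ, 0 ≤ C ∧ 0 < ρ ∧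
      ∀ x : X → ℂ, ‖x - c‖ ≤ ρ → ∀ w : X → ℂ, ‖w‖ ≤ ρ →
        ‖F (x + w) - ∑ p : X → Fin P, tcX F (fun i => (p i : ℕ)) x *
          cm w (fun i => (p i : ℕ))‖ ≤ C * ‖w‖ ^ P)
  (hzero : ∀ (F : (X → ℂ) → ℂ) (c : X → ℂ), AnalyticAt ℂ F c →
      (∀ P : ℕ, ∃ C ρ : ℝ, 0 < ρ ∧ ∀ w : X → ℂ, ‖w‖ ≤ ρ → ‖F (c + w)‖ ≤ C * ‖w‖ ^ P) →
      ∀ᶠ x in 𝓝 c, F x = 0)

include hcont in
theorem coef_bound {F : (X → ℂ) → ℂ} {K : Set (X → ℂ)} (hK : IsCompact K)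
    (hF : ∀ t ∈ K, AnalyticAt ℂ F t) (α : X → ℕ) : ∃ C : ℝ, 0 ≤ C ∧ ∀ θ ∈ K, ‖tcX F α θ‖ ≤ C := by
  obtain ⟨M, hM⟩ := hK.exists_bound_of_continuousOn (f := tcX F α)
    (fun t ht => (hcont F t α (hF t ht)).continuousWithinAt)
  exact ⟨max M 0, le_max_right _ _, fun θ hθ => (hM θ hθ).trans (le_max_left _ _)⟩

include hrem in
/-- remainders with a uniform small radius -/
theorem rem_small {F : (X → ℂ) → ℂ} {K : Set (X → ℂ)} (hK : IsCompact K)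
    (hF : ∀ t ∈ K, AnalyticAt ℂ F t) (P : ℕ) : ∃ C ρ : ℝ, 0 ≤ C ∧ 0 < ρ ∧
      ∀ x ∈ K, ∀ w : X → ℂ, ‖w‖ ≤ ρ → ‖F (x + w) - tp tcX F P x w‖ ≤ C * ‖w‖ ^ P := by
  refine hK.induction_on (p := fun S => ∃ C ρ : ℝ, 0 ≤ C ∧ 0 < ρ ∧
      ∀ x ∈ S, ∀ w : X → ℂ, ‖w‖ ≤ ρ → ‖F (x + w) - tp tcX F P x w‖ ≤ C * ‖w‖ ^ P) ?_ ?_ ?_ ?_
  · exact ⟨0, 1, le_refl _, one_pos, fun x hx => absurd hx (Set.notMem_empty x)⟩
  · rintro S T hST ⟨C, ρ, hC, hρ, h⟩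
    exact ⟨C, ρ, hC, hρ, fun x hx => h x (hST hx)⟩
  · rintro S T ⟨C, ρ, hC, hρ, h⟩ ⟨C', ρ', hC', hρ', h'⟩
    refine ⟨max C C', min ρ ρ', le_max_of_le_left hC, lt_min hρ hρ', ?_⟩
    rintro x (hx | hx) w hw
    · refine (h x hx w (hw.trans (min_le_left _ _))).trans ?_
      exact mul_le_mul_of_nonneg_right (le_max_left _ _) (by positivity)
    · refine (h' x hx w (hw.trans (min_le_right _ _))).trans ?_
      exact mul_le_mul_of_nonneg_right (le_max_right _ _) (by positivity)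
  · intro c hc
    obtain ⟨C, ρ, hC, hρ, h⟩ := hrem F c P (hF c hc)
    refine ⟨Metric.closedBall c ρ, mem_nhdsWithin_of_mem_nhds (Metric.closedBall_mem_nhds c hρ),
      C, ρ, hC, hρ, ?_⟩
    intro x hx w hw
    rw [Metric.mem_closedBall, dist_eq_norm] at hx
    exact h x hx w hw

include hcont hrem in
/-- remainders on a prescribed radius -/
theorem rem_unif {F : (X → ℂ) → ℂ} {K : Set (X → ℂ)} (hK : IsCompact K) {δ : ℝ}
    (hF : ∀ t ∈ Metric.cthickening δ K, AnalyticAt ℂ F t) (P : ℕ) : ∃ C : ℝ,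
      ∀ x ∈ K, ∀ w : X → ℂ, ‖w‖ ≤ δ → ‖F (x + w) - tp tcX F P x w‖ ≤ C * ‖w‖ ^ P := by
  have hKF : ∀ t ∈ K, AnalyticAt ℂ F t := fun t ht => hF t (Metric.self_subset_cthickening K ht)
  obtain ⟨C, ρ, hC, hρ, h1⟩ := rem_small hrem hK hKF P
  obtain ⟨M, hM⟩ := (hK.cthickening (r := δ)).exists_bound_of_continuousOn
    (f := F) (fun t ht => (hF t ht).continuousAt.continuousWithinAt)
  choose B hB0 hB using fun α : X → ℕ => coef_bound hcont hK hKF α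
  obtain ⟨M2, hM2⟩ : ∃ M2 : ℝ, ∀ x ∈ K, ∀ w : X → ℂ, ‖w‖ ≤ δ → ‖tp tcX F P x w‖ ≤ M2 := by
    refine ⟨∑ p : X → Fin P, B (fun i => (p i : ℕ)) * ∏ i, δ ^ (p i : ℕ), ?_⟩
    intro x hx w hw
    unfold tp
    refine (norm_sum_le _ _).trans (Finset.sum_le_sum fun p _ => ?_)
    rw [norm_mul]
    exact mul_le_mul (hB _ x hx) (cm_norm w _ hw) (norm_nonneg _) (hB0 _)
  refine ⟨max C ((|M| + |M2|) * (ρ⁻¹) ^ P), ?_⟩
  intro x hx w hw
  by_cases hwρ : ‖w‖ ≤ ρ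
  · refine (h1 x hx w hwρ).trans ?_
    exact mul_le_mul_of_nonneg_right (le_max_left _ _) (by positivity)
  · push Not at hwρ
    have hxw : x + w ∈ Metric.cthickening δ K := by
      refine Metric.mem_cthickening_of_dist_le (x + w) x δ K hx ?_
      rw [dist_eq_norm, add_sub_cancel_left]
      exact hw
    have h2 : ‖F (x + w) - tp tcX F P x w‖ ≤ |M| + |M2| := by
      refine (norm_sub_le _ _).trans (add_le_add ?_ ?_)
      · exact (hM _ hxw).trans (le_abs_self _)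
      · exact (hM2 x hx w hw).trans (le_abs_self _)
    have h3 : 1 ≤ (ρ⁻¹) ^ P * ‖w‖ ^ P := by
      rw [← mul_pow]
      apply one_le_pow₀
      rw [inv_mul_eq_div, one_le_div hρ]
      exact hwρ.le
    calc ‖F (x + w) - tp tcX F P x w‖ ≤ (|M| + |M2|) * 1 := by rw [mul_one]; exact h2
      _ ≤ (|M| + |M2|) * ((ρ⁻¹) ^ P * ‖w‖ ^ P) := mul_le_mul_of_nonneg_left h3 (by positivity)
      _ = (|M| + |M2|) * (ρ⁻¹) ^ P * ‖w‖ ^ P := by ring
      _ ≤ _ := mul_le_mul_of_nonneg_right (le_max_right _ _) (by positivity)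

include hrem hzero in
/-- the Taylor coefficients of the monomials are linearly independent -/
theorem Wm_indep (f : σ → (X → ℂ) → ℂ) (t0 : X → ℂ) (han : ∀ i, AnalyticAt ℂ (f i) t0)
    (hind : LocIndM f t0) (𝓜 : Finset (X ⊕ σ →₀ ℕ)) (x : 𝓜 → ℂ)
    (h : ∀ p, ∑ j : 𝓜, x j * tcX (Wm f j) p t0 = 0) : x = 0 := by
  classical
  obtain ⟨F, hF⟩ : ∃ F : (X → ℂ) → ℂ, F = fun t => ∑ j : 𝓜, x j * Wm f j t := ⟨_, rfl⟩
  have hFan : AnalyticAt ℂ F t0 := by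
    rw [hF]
    refine Finset.analyticAt_fun_sum _ fun j _ => ?_
    exact analyticAt_const.mul (Wm_an f han j)
  have hsmall : ∀ P : ℕ, ∃ C ρ : ℝ, 0 < ρ ∧ ∀ w : X → ℂ, ‖w‖ ≤ ρ →
      ‖F (t0 + w)‖ ≤ C * ‖w‖ ^ P := by
    intro P
    choose C ρ hC hρ hr using fun j : 𝓜 => hrem (Wm f j) t0 P (Wm_an f han j)
    obtain ⟨ρ0, hρ0, hρ1⟩ : ∃ ρ0 : ℝ, 0 < ρ0 ∧ ∀ j, ρ0 ≤ ρ j := by
      rcases isEmpty_or_nonempty 𝓜 with he | hne
      · exact ⟨1, one_pos, fun j => (he.false j).elim⟩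
      · obtain ⟨j0, hj0⟩ := Finite.exists_min ρ
        exact ⟨ρ j0, hρ j0, hj0⟩
    refine ⟨∑ j, ‖x j‖ * C j, ρ0, hρ0, ?_⟩
    intro w hw
    have e1 : F (t0 + w) = ∑ j : 𝓜, x j * (Wm f j (t0 + w) - tp tcX (Wm f j) P t0 w) := by
      have e2 : ∑ j : 𝓜, x j * tp tcX (Wm f j) P t0 w = 0 := by
        unfold tp
        simp only [Finset.mul_sum]
        rw [Finset.sum_comm]
        refine Finset.sum_eq_zero fun p _ => ?_
        have e3 : ∑ j : 𝓜, x j * (tcX (Wm f j) (fun i => (p i : ℕ)) t0 * cm w fun i => (p i : ℕ)) =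
            (∑ j : 𝓜, x j * tcX (Wm f j) (fun i => (p i : ℕ)) t0) * cm w fun i => (p i : ℕ) := by
          rw [Finset.sum_mul]
          exact Finset.sum_congr rfl fun j _ => by ring
        rw [e3, h, zero_mul]
      simp only [mul_sub, Finset.sum_sub_distrib]
      rw [e2, sub_zero, hF]
    rw [e1, Finset.sum_mul]
    refine (norm_sum_le _ _).trans (Finset.sum_le_sum fun j _ => ?_)
    rw [norm_mul, mul_assoc]
    refine mul_le_mul_of_nonneg_left ?_ (norm_nonneg _)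
    refine hr j t0 ?_ w (hw.trans (hρ1 j))
    rw [sub_self, norm_zero]
    exact (hρ j).le
  have hev := hzero F t0 hFan hsmall
  obtain ⟨Q, hQ⟩ : ∃ Q : MvPolynomial (X ⊕ σ) ℂ,
    Q = ∑ j : 𝓜, MvPolynomial.monomial (j : X ⊕ σ →₀ ℕ) (x j) := ⟨_, rfl⟩
  have hQ0 : Q = 0 := by
    apply hind
    filter_upwards [hev] with t ht
    rw [hQ, map_sum]
    rw [hF] at ht
    refine Eq.trans (Finset.sum_congr rfl fun j _ => ?_) ht
    rw [MvPolynomial.eval_monomial]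
    rfl
  funext j
  have h1 : MvPolynomial.coeff (j : X ⊕ σ →₀ ℕ) Q = x j := by
    rw [hQ, MvPolynomial.coeff_sum]
    simp only [MvPolynomial.coeff_monomial]
    rw [Finset.sum_eq_single j]
    · rw [if_pos rfl]
    · intro j' _ hne
      rw [if_neg]
      intro hh
      exact hne (Subtype.ext hh)
    · intro hj
      exact absurd (Finset.mem_univ j) hj
  rw [← h1, hQ0]
  simp

include hcont hrem hzero in
/-- uniform nondegeneracy -/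
theorem nd_compact (f : σ → (X → ℂ) → ℂ) {K : Set (X → ℂ)} (hK : IsCompact K)
    (han : ∀ i, ∀ t ∈ K, AnalyticAt ℂ (f i) t) (hind : ∀ t ∈ K, LocIndM f t)
    (𝓜 : Finset (X ⊕ σ →₀ ℕ)) :
    ∃ N₀ : ℕ, ∃ c₀ : ℝ, 0 < c₀ ∧ ∀ θ ∈ K, ∀ g : (X ⊕ σ →₀ ℕ) → ℂ,
      ∃ p : X → ℕ, (∀ i, p i ≤ N₀) ∧ ∀ j ∈ 𝓜, c₀ * ‖g j‖ ≤ ‖∑ j' ∈ 𝓜, g j' * tcX (Wm f j') p θ‖ := by
  classical
  by_contra hcon
  push Not at hcon
  have h1 : ∀ n : ℕ, ∃ θ ∈ K, ∃ x : 𝓜 → ℂ, ‖x‖ = 1 ∧ ∀ p : X → ℕ, (∀ i, p i ≤ n) →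
      ‖∑ j' : 𝓜, x j' * tcX (Wm f j') p θ‖ ≤ ((n : ℝ) + 1)⁻¹ := by
    intro n
    obtain ⟨θ, hθ, g, hg⟩ := hcon n (((n : ℝ) + 1)⁻¹) (by positivity)
    obtain ⟨y, hy⟩ : ∃ y : 𝓜 → ℂ, y = fun j : 𝓜 => g (j : X ⊕ σ →₀ ℕ) := ⟨_, rfl⟩
    have hyj : ∀ j : 𝓜, y j = g j := fun j => by rw [hy]
    have hy0 : 0 < ‖y‖ := by
      rw [norm_pos_iff]
      intro h0
      obtain ⟨j, hj, hlt⟩ := hg 0 (fun i => Nat.zero_le _)
      have : g j = 0 := by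
        rw [← hyj ⟨j, hj⟩, h0]
        rfl
      rw [this, norm_zero, mul_zero] at hlt
      exact absurd hlt (not_lt.2 (norm_nonneg _))
    refine ⟨θ, hθ, (‖y‖⁻¹ : ℝ) • y, ?_, ?_⟩
    · rw [norm_smul, Real.norm_eq_abs, abs_of_pos (inv_pos.2 hy0), inv_mul_cancel₀ hy0.ne']
    · intro p hp
      obtain ⟨j, hj, hlt⟩ := hg p hp
      have h2 : ∑ j' : 𝓜, ((‖y‖⁻¹ : ℝ) • y) j' * tcX (Wm f j') p θ =
          ((‖y‖⁻¹ : ℝ) : ℂ) * ∑ j' ∈ 𝓜, g j' * tcX (Wm f j') p θ := by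
        rw [← Finset.sum_coe_sort 𝓜 (fun j' => g j' * tcX (Wm f j') p θ), Finset.mul_sum]
        refine Finset.sum_congr rfl fun j' _ => ?_
        rw [Pi.smul_apply, Complex.real_smul, hyj j']
        ring
      rw [h2, norm_mul, Complex.norm_real, Real.norm_eq_abs, abs_of_pos (inv_pos.2 hy0)]
      have h3 : ‖g j‖ ≤ ‖y‖ := by
        rw [← hyj ⟨j, hj⟩]
        exact norm_le_pi_norm y ⟨j, hj⟩
      calc ‖y‖⁻¹ * ‖∑ j' ∈ 𝓜, g j' * tcX (Wm f j') p θ‖ ≤ ‖y‖⁻¹ * (((n : ℝ) + 1)⁻¹ * ‖y‖) := by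
            refine mul_le_mul_of_nonneg_left (hlt.le.trans ?_) (inv_pos.2 hy0).le
            exact mul_le_mul_of_nonneg_left h3 (by positivity)
        _ = ((n : ℝ) + 1)⁻¹ := by field_simp
  choose θ hθ x hx1 hxp using h1
  have hcomp : IsCompact (K ×ˢ Metric.sphere (0 : 𝓜 → ℂ) 1) := hK.prod (isCompact_sphere _ _)
  obtain ⟨⟨θs, xs⟩, hmem, φ, hφ, hlim⟩ := hcomp.tendsto_subseq (x := fun n => (θ n, x n))
    (fun n => ⟨hθ n, by rw [mem_sphere_zero_iff_norm]; exact hx1 n⟩)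
  have hθs : θs ∈ K := hmem.1
  have hxs : ‖xs‖ = 1 := by simpa using hmem.2
  have hl1 : Tendsto (fun n => θ (φ n)) atTop (𝓝 θs) := (continuous_fst.tendsto _).comp hlim
  have hl2 : Tendsto (fun n => x (φ n)) atTop (𝓝 xs) := (continuous_snd.tendsto _).comp hlim
  have hzero' : ∀ p, ∑ j' : 𝓜, xs j' * tcX (Wm f j') p θs = 0 := by
    intro p
    have h4 : Tendsto (fun n => ∑ j' : 𝓜, x (φ n) j' * tcX (Wm f j') p (θ (φ n))) atTop
        (𝓝 (∑ j' : 𝓜, xs j' * tcX (Wm f j') p θs)) := by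
      refine tendsto_finsetSum _ fun j' _ => ?_
      refine Tendsto.mul ((continuous_apply j').continuousAt.tendsto.comp hl2) ?_
      exact (hcont _ _ p (Wm_an f (fun i => han i θs hθs) j')).tendsto.comp hl1
    have h5 : Tendsto (fun n => ∑ j' : 𝓜, x (φ n) j' * tcX (Wm f j') p (θ (φ n))) atTop
        (𝓝 0) := by
      rw [tendsto_zero_iff_norm_tendsto_zero]
      have h6 : Tendsto (fun n : ℕ => (((φ n : ℕ) : ℝ) + 1)⁻¹) atTop (𝓝 0) := by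
        have h7 : Tendsto (fun n : ℕ => ((n : ℝ) + 1)⁻¹) atTop (𝓝 0) :=
          (tendsto_natCast_atTop_atTop.atTop_add tendsto_const_nhds).inv_tendsto_atTop
        exact h7.comp hφ.tendsto_atTop
      refine squeeze_zero' (Eventually.of_forall fun n => norm_nonneg _) ?_ h6
      filter_upwards [eventually_ge_atTop (∑ i, p i)] with n hn
      refine hxp (φ n) p fun i => ?_
      exact (Finset.single_le_sum (fun i _ => Nat.zero_le (p i)) (Finset.mem_univ i)).trans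
        (hn.trans (hφ.id_le n))
    exact tendsto_nhds_unique h4 h5
  have h9 : xs = 0 := Wm_indep hrem hzero f θs (fun i => han i θs hθs) (hind θs hθs) 𝓜 xs hzero'
  rw [h9, norm_zero] at hxs
  exact zero_ne_one hxs

end

/-- **Charts of analytic functions of several variables.** -/
theorem t (hT : StmTaylor) : StmCharts := by
  intro X σ _ _ _ _ f K hK han hind
  obtain ⟨tcX, hcont, hrem, hzero⟩ := hT X
  obtain ⟨δ, hδ, hδ'⟩ := exists_radius f hK han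
  refine ⟨{
    Θ := K
    τ := fun θ => θ
    dom := fun θ => Metric.closedBall (θ : X → ℂ) δ
    u := fun _ i t => f i t
    a := fun θ j p => tcX (Wm f j) p θ
    τb := ?_
    ab := ?_
    approx := ?_
    nd := ?_ }, δ, hδ, fun t ht => ⟨⟨t, ht⟩, rfl, subset_rfl, rfl⟩⟩
  · obtain ⟨M, hM⟩ := hK.isBounded.exists_norm_le
    exact ⟨M, fun θ i => (norm_le_pi_norm (θ : X → ℂ) i).trans (hM θ θ.2)⟩
  · intro j p
    obtain ⟨C, -, h⟩ := coef_bound hcont hK (fun t ht => Wm_an f (fun i => han i t ht) j) p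
    exact ⟨C, fun θ => h θ θ.2⟩
  · intro j P
    obtain ⟨C, h⟩ := rem_unif hcont hrem hK (fun t ht => Wm_an f (hδ' t ht) j) P
    refine ⟨C, fun θ t ht => ?_⟩
    rw [Metric.mem_closedBall, dist_eq_norm] at ht
    have h1 := h θ θ.2 (t - θ) ht
    rw [add_sub_cancel] at h1
    exact h1
  · intro 𝓜
    obtain ⟨N₀, c₀, hc₀, h⟩ := nd_compact hcont hrem hzero f hK han hind 𝓜
    exact ⟨N₀, c₀, hc₀, fun θ g => h θ θ.2 g⟩

end Pool.Agent.Y232.MV
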